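import Pool.Agent.Helper26.PQ.Stub.A2

/-! # A3: the classification of countable compact spaces -/

set_option autoImplicit false

namespace Pool.Agent.Helper26.PQ

open Set

universe u v

section A3

variable {Ω : Type u} {Ω' : Type v} {K : Set (Set Ω)} {L : Set (Set Ω')}

/-- The ring of the members of `K` inside `C` which miss the point `x`. -/
def A3_punct (K : Set (Set Ω)) (C : Set Ω) (x : Ω) : Set (Set Ω) := {A | A ∈ K ∧ A ⊆ C ∧ x ∉ A}

theorem A3_car_punct (hK : IsRing K) {C : Set Ω} (hC : C ∈ K) {x : Ω} (hx : x ∈ C) :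
    car (A3_punct K C x) = C \ {x} := by
  ext y
  constructor
  · rintro ⟨A, ⟨hA, hAC, hxA⟩, hy⟩
    exact ⟨hAC hy, fun h => hxA (h ▸ hy)⟩
  · rintro ⟨hyC, hyx⟩
    obtain ⟨B, hB, hyB, hxB⟩ := hK.sep y (subset_car hC hyC) x (subset_car hC hx) hyx
    exact ⟨B ∩ C, ⟨hK.inter hB hC, inter_subset_right, fun h => hxB h.1⟩, hyB, hyC⟩

theorem A3_isRing_punct (hK : IsRing K) {C : Set Ω} {x : Ω} : IsRing (A3_punct K C x) where
  empty := ⟨hK.empty, empty_subset _, fun h => h⟩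
  union := fun A hA B hB => ⟨hK.union A hA.1 B hB.1, union_subset hA.2.1 hB.2.1,
    fun h => h.elim hA.2.2 hB.2.2⟩
  diff := fun A hA B hB => ⟨hK.diff A hA.1 B hB.1, sdiff_subset.trans hA.2.1,
    fun h => hA.2.2 h.1⟩
  sep := by
    rintro y ⟨B, hB, hyB⟩ z ⟨B', hB', hzB'⟩ hyz
    obtain ⟨A, hA, hyA, hzA⟩ := hK.sep y ⟨B, hB.1, hyB⟩ z ⟨B', hB'.1, hzB'⟩ hyz
    exact ⟨A ∩ B, ⟨hK.inter hA hB.1, inter_subset_right.trans hB.2.1, fun h => hB.2.2 h.2⟩,
      ⟨hyA, hyB⟩, fun h => hzA h.1⟩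
  cpt := fun A hA U hU hAU => hK.cpt A hA.1 U (fun B hB => (hU hB).1) hAU

theorem A3_extend (hK : IsRing K) (hL : IsRing L) {C : Set Ω} {C' : Set Ω'} (hC : C ∈ K)
    (hC' : C' ∈ L) {x : Ω} {x' : Ω'} (hx : x ∈ C) (hx' : x' ∈ C') {f : Ω → Ω'}
    (hf : Iso (A3_punct K C x) (A3_punct L C' x') f) (hfx : f x = x') :
    Iso (pc K C) (pc L C') f := by
  have hb := hf.1
  have hi := hf.2
  rw [A3_car_punct hK hC hx] at hi
  rw [A3_car_punct hK hC hx, A3_car_punct hL hC' hx'] at hb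
  have hbC : BijOn f C C' := by
    have h1 := hb.insert (a := x) (by rw [hfx]; simp)
    rw [insert_sdiff_singleton, insert_eq_of_mem hx, hfx, insert_sdiff_singleton,
      insert_eq_of_mem hx'] at h1
    exact h1
  have hmaps : ∀ A ⊆ C, x ∉ A → f '' A ⊆ C' ∧ x' ∉ f '' A := by
    intro A hAC hxA
    refine ⟨(image_mono hAC).trans hbC.mapsTo.image_subset, ?_⟩
    rintro ⟨y, hy, hyx⟩
    exact (hb.mapsTo ⟨hAC hy, fun h => hxA (h ▸ hy)⟩).2 hyx
  have hno : ∀ A ⊆ C, x ∉ A → (A ∈ K ↔ f '' A ∈ L) := by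
    intro A hAC hxA
    have h1 := hi A (fun y hy => ⟨hAC hy, fun h => hxA (h ▸ hy)⟩)
    constructor
    · intro hA
      exact (h1.1 ⟨hA, hAC, hxA⟩).1
    · intro hA
      exact (h1.2 ⟨hA, (hmaps A hAC hxA).1, (hmaps A hAC hxA).2⟩).1
  have hall : ∀ A ⊆ C, (A ∈ K ↔ f '' A ∈ L) := by
    intro A hAC
    by_cases hxA : x ∈ A
    · have h1 := hno (C \ A) sdiff_subset (fun h => h.2 hxA)
      have h2 : f '' (C \ A) = C' \ f '' A := by
        rw [hbC.injOn.image_sdiff_subset hAC, hbC.image_eq]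
      have h3 : f '' A ⊆ C' := (image_mono hAC).trans hbC.mapsTo.image_subset
      constructor
      · intro hA
        have h4 := h1.1 (hK.diff C hC A hA)
        rw [h2] at h4
        have h5 := hL.diff C' hC' _ h4
        rwa [sdiff_sdiff_cancel_left h3] at h5
      · intro hA
        have h4 : C \ A ∈ K := h1.2 (by rw [h2]; exact hL.diff C' hC' _ hA)
        have h5 := hK.diff C hC _ h4
        rwa [sdiff_sdiff_cancel_left hAC] at h5
    · exact hno A hAC hxA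
  refine ⟨?_, ?_⟩
  · rw [(hK.clp_mem hC).car_pc, (hL.clp_mem hC').car_pc]
    exact hbC
  · intro A hA
    rw [(hK.clp_mem hC).car_pc] at hA
    constructor
    · intro h
      exact ⟨(hall A hA).1 h.1, (image_mono hA).trans hbC.mapsTo.image_subset⟩
    · intro h
      exact ⟨(hall A hA).2 h.1, hA⟩

theorem A3_step (hK : IsRing K) (hL : IsRing L) (rK : ∃ ρ, IsRank K ρ) (rL : ∃ ρ, IsRank L ρ)
    {β : Ordinal.{0}} {R : Set Ω → Set Ω' → Prop} (hR0 : R ∅ ∅)
    (IH : ∀ A ∈ K, ∀ A' ∈ L, ∀ y ∈ A, ∀ y' ∈ A', (∀ z ∈ A, z ≠ y → rk K z < rk K y) →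
      (∀ z ∈ A', z ≠ y' → rk L z < rk L y') → rk K y = rk L y' → rk K y < β → R A A')
    {C : Set Ω} {C' : Set Ω'} {x : Ω} {x' : Ω'} (hC : C ∈ K) (hC' : C' ∈ L) (hx : x ∈ C)
    (hx' : x' ∈ C') (ht : ∀ y ∈ C, y ≠ x → rk K y < β) (hβ : β ≤ rk L x')
    {U : Set Ω} {U' : Set Ω'} (hU : U ∈ A3_punct K C x) (hU' : U' ∈ A3_punct L C' x')
    {c : Ω} (hc : c ∈ C) (hcx : c ≠ x) :
    ∃ V ∈ A3_punct K C x, ∃ V' ∈ A3_punct L C' x', U ⊆ V ∧ U' ⊆ V' ∧ c ∈ V ∧
      R (V \ U) (V' \ U') := by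
  by_cases hcU : c ∈ U
  · exact ⟨U, hU, U', hU', Subset.rfl, Subset.rfl, hcU, by simpa using hR0⟩
  obtain ⟨B, hB, hcB, hxB⟩ := hK.sep c (subset_car hC hc) x (subset_car hC hx) hcx
  obtain ⟨A, hA, hcA, hAB, hAt⟩ := exists_top rK hK (hK.diff _ (hK.inter hB hC) _ hU.1)
    (⟨⟨hcB, hc⟩, hcU⟩ : c ∈ (B ∩ C) \ U)
  obtain ⟨y, hy, hyr⟩ := exists_rk_eq rL hL (hL.diff _ hC' _ hU'.1)
    (⟨hx', hU'.2.2⟩ : x' ∈ C' \ U') (β := rk K c) ((ht c hc hcx).le.trans hβ)
  have hyx : y ≠ x' := by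
    rintro rfl
    exact absurd (ht c hc hcx) (by rw [← hyr]; exact not_lt.2 hβ)
  obtain ⟨B', hB', hyB', hxB'⟩ := hL.sep y (subset_car hC' hy.1) x' (subset_car hC' hx') hyx
  obtain ⟨A', hA', hyA', hAB', hAt'⟩ := exists_top rL hL
    (hL.inter hB' (hL.diff _ hC' _ hU'.1)) (⟨hyB', hy⟩ : y ∈ B' ∩ (C' \ U'))
  have e1 : (U ∪ A) \ U = A := by
    ext z
    constructor
    · rintro ⟨h1 | h1, h2⟩
      · exact absurd h1 h2
      · exact h1
    · intro h
      exact ⟨Or.inr h, (hAB h).2⟩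
  have e2 : (U' ∪ A') \ U' = A' := by
    ext z
    constructor
    · rintro ⟨h1 | h1, h2⟩
      · exact absurd h1 h2
      · exact h1
    · intro h
      exact ⟨Or.inr h, (hAB' h).2.2⟩
  refine ⟨U ∪ A, ⟨hK.union _ hU.1 _ hA, union_subset hU.2.1 (fun z hz => (hAB hz).1.2), ?_⟩,
    U' ∪ A', ⟨hL.union _ hU'.1 _ hA', union_subset hU'.2.1 (fun z hz => (hAB' hz).2.1), ?_⟩,
    subset_union_left, subset_union_left, Or.inr hcA, ?_⟩
  · rintro (h | h)
    · exact hU.2.2 h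
    · exact hxB (hAB h).1.1
  · rintro (h | h)
    · exact hU'.2.2 h
    · exact hxB' (hAB' h).1
  · rw [e1, e2]
    exact IH A hA A' hA' c hcA y hyA' hAt hAt' hyr.symm (ht c hc hcx)

theorem A3_aux {α α' : Ordinal.{0}} (hK : IsSp α K) (hL : IsSp α' L) (β : Ordinal.{0}) :
    ∀ C ∈ K, ∀ C' ∈ L, ∀ x ∈ C, ∀ x' ∈ C', (∀ y ∈ C, y ≠ x → rk K y < rk K x) →
      (∀ y ∈ C', y ≠ x' → rk L y < rk L x') → rk K x = rk L x' → rk K x = β →
      ∃ f : Ω → Ω', Iso (pc K C) (pc L C') f := by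
  induction β using WellFoundedLT.induction with
  | _ β IH =>
  intro C hC C' hC' x hx x' hx' ht ht' hrr hβ
  have hKr := hK.ring
  have hLr := hL.ring
  -- the relation
  set R : Set Ω → Set Ω' → Prop := fun A A' => ∃ f : Ω → Ω', Iso (pc K A) (pc L A') f with hR
  have hpc0 : pc K (∅ : Set Ω) = {∅} := by
    ext A
    constructor
    · rintro ⟨_, h⟩
      exact subset_empty_iff.1 h
    · rintro h
      rw [mem_singleton_iff.1 h]
      exact ⟨hKr.empty, Subset.rfl⟩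
  have hpc0' : pc L (∅ : Set Ω') = {∅} := by
    ext A
    constructor
    · rintro ⟨_, h⟩
      exact subset_empty_iff.1 h
    · rintro h
      rw [mem_singleton_iff.1 h]
      exact ⟨hLr.empty, Subset.rfl⟩
  have hR0 : R ∅ ∅ := by
    refine ⟨fun _ => x', ?_, ?_⟩
    · rw [hpc0, hpc0', car_singleton_empty, car_singleton_empty]
      exact ⟨fun y hy => hy.elim, fun y hy => hy.elim, fun y hy => hy.elim⟩
    · intro A hA
      rw [hpc0, car_singleton_empty, subset_empty_iff] at hA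
      subst hA
      rw [image_empty, hpc0, hpc0']
      simp
  have IH1 : ∀ A ∈ K, ∀ A' ∈ L, ∀ y ∈ A, ∀ y' ∈ A', (∀ z ∈ A, z ≠ y → rk K z < rk K y) →
      (∀ z ∈ A', z ≠ y' → rk L z < rk L y') → rk K y = rk L y' → rk K y < β → R A A' :=
    fun A hA A' hA' y hy y' hy' h1 h2 h3 h4 => IH (rk K y) h4 A hA A' hA' y hy y' hy' h1 h2 h3 rfl
  have IH2 : ∀ A' ∈ L, ∀ A ∈ K, ∀ y' ∈ A', ∀ y ∈ A, (∀ z ∈ A', z ≠ y' → rk L z < rk L y') →
      (∀ z ∈ A, z ≠ y → rk K z < rk K y) → rk L y' = rk K y → rk L y' < β → R A A' :=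
    fun A' hA' A hA y' hy' y hy h1 h2 h3 h4 => IH1 A hA A' hA' y hy y' hy' h2 h1 h3.symm (h3 ▸ h4)
  have hβL : rk L x' = β := by rw [← hrr, hβ]
  have htβ : ∀ y ∈ C, y ≠ x → rk K y < β := fun y hy hyx => by rw [← hβ]; exact ht y hy hyx
  have htβ' : ∀ y ∈ C', y ≠ x' → rk L y < β := fun y hy hyx => by rw [← hβL]; exact ht' y hy hyx
  -- enumeration
  set T : Set (Ω ⊕ Ω') := Sum.inl '' (C \ {x}) ∪ Sum.inr '' (C' \ {x'}) with hT
  have hTc : T.Countable := by
    refine Countable.union (Countable.image ?_ _) (Countable.image ?_ _)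
    · exact hK.count.mono (sdiff_subset.trans (subset_car hC))
    · exact hL.count.mono (sdiff_subset.trans (subset_car hC'))
  have : Encodable T := hTc.toEncodable
  set S := {p : Set Ω × Set Ω' // p.1 ∈ A3_punct K C x ∧ p.2 ∈ A3_punct L C' x'} with hS
  set Hit : Ω ⊕ Ω' → S → Prop := fun z t => Sum.elim (fun c => c ∈ t.1.1) (fun c => c ∈ t.1.2) z
    with hHit
  have step : ∀ (n : ℕ) (s : S), ∃ t : S, s.1.1 ⊆ t.1.1 ∧ s.1.2 ⊆ t.1.2 ∧
      R (t.1.1 \ s.1.1) (t.1.2 \ s.1.2) ∧ ∀ z : T, Encodable.decode n = some z → Hit z.1 t := by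
    intro n s
    rcases hd : (Encodable.decode n : Option T) with _ | z
    · refine ⟨s, Subset.rfl, Subset.rfl, ?_, ?_⟩
      · simpa using hR0
      · intro z hz
        simp at hz
    · rcases z with ⟨z, hz | hz⟩
      · obtain ⟨c, hc, rfl⟩ := hz
        obtain ⟨V, hV, V', hV', h1, h2, h3, h4⟩ := A3_step hKr hLr hK.rank hL.rank hR0 IH1 hC hC'
          hx hx' htβ hβL.ge s.2.1 s.2.2 hc.1 hc.2
        refine ⟨⟨(V, V'), hV, hV'⟩, h1, h2, h4, ?_⟩
        intro z hz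
        rw [Option.some.injEq] at hz
        subst hz
        exact h3
      · obtain ⟨c, hc, rfl⟩ := hz
        obtain ⟨V', hV', V, hV, h1, h2, h3, h4⟩ := A3_step (R := fun A' A => R A A') hLr hKr
          hL.rank hK.rank hR0 IH2 hC' hC hx' hx htβ' hβ.ge s.2.2 s.2.1 hc.1 hc.2
        refine ⟨⟨(V, V'), hV, hV'⟩, h2, h1, h4, ?_⟩
        intro z hz
        rw [Option.some.injEq] at hz
        subst hz
        exact h3
  choose nxt hn1 hn2 hn3 hn4 using step
  let s0 : S := ⟨(∅, ∅), A3_isRing_punct hKr |>.empty, A3_isRing_punct hLr |>.empty⟩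
  let st : ℕ → S := fun n => Nat.rec s0 (fun n s => nxt n s) n
  have hst : ∀ n, st (n + 1) = nxt n (st n) := fun n => rfl
  have hm1 : Monotone fun n => (st n).1.1 := monotone_nat_of_le_succ fun n => by
    show (st n).1.1 ⊆ (st (n + 1)).1.1
    rw [hst]; exact hn1 n _
  have hm2 : Monotone fun n => (st n).1.2 := monotone_nat_of_le_succ fun n => by
    show (st n).1.2 ⊆ (st (n + 1)).1.2
    rw [hst]; exact hn2 n _
  set D : ℕ → Set Ω := fun n => (st (n + 1)).1.1 \ (st n).1.1 with hD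
  set D' : ℕ → Set Ω' := fun n => (st (n + 1)).1.2 \ (st n).1.2 with hD'
  have hRD : ∀ n, ∃ f : Ω → Ω', Iso (pc K (D n)) (pc L (D' n)) f := fun n => by
    have := hn3 n (st n)
    rw [← hst] at this
    exact this
  choose g hg using hRD
  have hdD : Pairwise fun i j => Disjoint (D i) (D j) := by
    intro i j hij
    rw [Set.disjoint_left]
    rintro y ⟨h1, h2⟩ ⟨h3, h4⟩
    rcases lt_or_gt_of_ne hij with h | h
    · exact h4 (hm1 (Nat.succ_le_of_lt h) h1)
    · exact h2 (hm1 (Nat.succ_le_of_lt h) h3)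
  have hdD' : Pairwise fun i j => Disjoint (D' i) (D' j) := by
    intro i j hij
    rw [Set.disjoint_left]
    rintro y ⟨h1, h2⟩ ⟨h3, h4⟩
    rcases lt_or_gt_of_ne hij with h | h
    · exact h4 (hm2 (Nat.succ_le_of_lt h) h1)
    · exact h2 (hm2 (Nat.succ_le_of_lt h) h3)
  have hcovD : ∀ n, ∀ y ∈ (st n).1.1, ∃ i, y ∈ D i := by
    intro n
    induction n with
    | zero => intro y hy; exact absurd hy (by show y ∉ (∅ : Set Ω); simp)
    | succ n ih =>
      intro y hy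
      by_cases h : y ∈ (st n).1.1
      · exact ih y h
      · exact ⟨n, hy, h⟩
  have hcovD' : ∀ n, ∀ y ∈ (st n).1.2, ∃ i, y ∈ D' i := by
    intro n
    induction n with
    | zero => intro y hy; exact absurd hy (by show y ∉ (∅ : Set Ω'); simp)
    | succ n ih =>
      intro y hy
      by_cases h : y ∈ (st n).1.2
      · exact ih y h
      · exact ⟨n, hy, h⟩
  have hDm : ∀ n, D n ∈ A3_punct K C x := fun n =>
    (A3_isRing_punct hKr).diff _ (st (n + 1)).2.1 _ (st n).2.1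
  have hDm' : ∀ n, D' n ∈ A3_punct L C' x' := fun n =>
    (A3_isRing_punct hLr).diff _ (st (n + 1)).2.2 _ (st n).2.2
  have huD : ⋃ i, D i = car (A3_punct K C x) := by
    apply Subset.antisymm
    · exact iUnion_subset fun i => subset_car (hDm i)
    · rw [A3_car_punct hKr hC hx]
      intro y hy
      have hyT : Sum.inl y ∈ T := Or.inl ⟨y, hy, rfl⟩
      have h1 := hn4 (Encodable.encode (⟨Sum.inl y, hyT⟩ : T))
        (st (Encodable.encode (⟨Sum.inl y, hyT⟩ : T))) ⟨Sum.inl y, hyT⟩ (Encodable.encodek _)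
      rw [← hst] at h1
      exact mem_iUnion.2 (hcovD (Encodable.encode (⟨Sum.inl y, hyT⟩ : T) + 1) y h1)
  have huD' : ⋃ i, D' i = car (A3_punct L C' x') := by
    apply Subset.antisymm
    · exact iUnion_subset fun i => subset_car (hDm' i)
    · rw [A3_car_punct hLr hC' hx']
      intro y hy
      have hyT : Sum.inr y ∈ T := Or.inr ⟨y, hy, rfl⟩
      have h1 := hn4 (Encodable.encode (⟨Sum.inr y, hyT⟩ : T))
        (st (Encodable.encode (⟨Sum.inr y, hyT⟩ : T))) ⟨Sum.inr y, hyT⟩ (Encodable.encodek _)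
      rw [← hst] at h1
      exact mem_iUnion.2 (hcovD' (Encodable.encode (⟨Sum.inr y, hyT⟩ : T) + 1) y h1)
  classical
  let f : Ω → Ω' := fun y => if h : ∃ i, y ∈ D i then g (Nat.find h) y else x'
  have hfg : ∀ i, ∀ y ∈ D i, f y = g i y := by
    intro i y hy
    have h : ∃ i, y ∈ D i := ⟨i, hy⟩
    have hi : Nat.find h = i := by
      by_contra hne
      exact (Set.disjoint_left.1 (hdD hne)) (Nat.find_spec h) hy
    simp only [f, dif_pos h, hi]
  have hfx : f x = x' := by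
    have h : ¬ ∃ i, x ∈ D i := by
      rintro ⟨i, hi⟩
      exact (hDm i).2.2 hi
    simp only [f, dif_neg h]
  have hpcD : ∀ i, pc (A3_punct K C x) (D i) = pc K (D i) := by
    intro i
    ext A
    constructor
    · intro h
      exact ⟨h.1.1, h.2⟩
    · intro h
      exact ⟨⟨h.1, h.2.trans (hDm i).2.1, fun hxA => (hDm i).2.2 (h.2 hxA)⟩, h.2⟩
  have hpcD' : ∀ i, pc (A3_punct L C' x') (D' i) = pc L (D' i) := by
    intro i
    ext A
    constructor
    · intro h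
      exact ⟨h.1.1, h.2⟩
    · intro h
      exact ⟨⟨h.1, h.2.trans (hDm' i).2.1, fun hxA => (hDm' i).2.2 (h.2 hxA)⟩, h.2⟩
  have hiso : Iso (A3_punct K C x) (A3_punct L C' x') f := by
    refine iso_glue (A3_isRing_punct hKr) (A3_isRing_punct hLr) D D' hDm hDm' hdD hdD' huD huD' ?_
    intro i
    rw [hpcD, hpcD']
    refine (hg i).congr ?_
    intro y hy
    rw [(hKr.clp_mem (hDm i).1).car_pc] at hy
    exact (hfg i y hy).symm
  exact ⟨f, A3_extend hKr hLr hC hC' hx hx' hiso hfx⟩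

end A3

/-- Two compact open sets of countable spaces, each with exactly one point of largest rank, are
homeomorphic if these ranks are equal. -/
theorem classify {Ω : Type u} {Ω' : Type v} {K : Set (Set Ω)} {L : Set (Set Ω')}
    {α α' : Ordinal.{0}} (hK : IsSp α K) (hL : IsSp α' L) {C : Set Ω} {C' : Set Ω'} (hC : C ∈ K)
    (hC' : C' ∈ L) {x : Ω} {x' : Ω'} (hx : x ∈ C) (hx' : x' ∈ C')
    (ht : ∀ y ∈ C, y ≠ x → rk K y < rk K x) (ht' : ∀ y ∈ C', y ≠ x' → rk L y < rk L x')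
    (h : rk K x = rk L x') : ∃ f : Ω → Ω', Iso (pc K C) (pc L C') f :=
  A3_aux hK hL (rk K x) C hC C' hC' x hx x' hx' ht ht' h rfl

end Pool.Agent.Helper26.PQ
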